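import Mathlib

/-!
The combinatorial core of the reduction from SUBSET SUM to the single-vehicle scheduling problem on
a line.
-/

namespace Pool.Agent.Run7.h465.LV

/-- the parameters of the reduction -/
structure Par where
  N : ℕ
  L : ℕ
  H : ℕ
  B : ℕ
  C : ℕ
  a : ℕ → ℕ

variable (P : Par)

namespace Par

/-- position of a vertex, as distance from the start -/
def pos (u : ℕ) : ℕ :=
  if u = 0 then (P.N + 1) * P.L else if 2 * P.N < u then 0 else
    (P.N - (u - 1) / 2) * P.L + (if u % 2 = 1 then P.a (u / 2) else 0)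

/-- the big jobs -/
def big (u : ℕ) : Bool := decide (u = 0 ∨ 2 * P.N < u ∨ u % 2 = 0)

/-- label of a big job -/
def lab (u : ℕ) : ℕ :=
  if u = 0 then 2 * P.N + 1 else if 2 * P.N < u then 2 * (u - 2 * P.N - 1) else u - 1

def rel (u : ℕ) : ℕ :=
  if u = 0 then (2 * P.N + 1) * P.H else
  if u = 3 * P.N + 1 then 2 * P.N * P.H + P.N * (P.N + 1) * P.L + 4 * P.C else
  if 2 * P.N < u then 2 * (u - 2 * P.N - 1) * P.H else
  if u % 2 = 1 then u * P.H else (u - 1) * P.H

def w (u : ℕ) : ℕ := if P.big u then 0 else P.a (u / 2)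

def hand (u : ℕ) : ℕ := if P.big u then P.H else 2 * P.a (u / 2)

def d (u v : ℕ) : ℕ := (P.pos u - P.pos v) + (P.pos v - P.pos u)

def st (s : ℕ × ℕ) (j : ℕ) : ℕ × ℕ := (max (s.1 + P.d s.2 j) (P.rel j) + P.hand j, j)

def z0 : ℕ := 2 * P.N + 1

def comp (π : List ℕ) : ℕ :=
  (π.foldl P.st (0, P.z0)).1 + P.d (π.foldl P.st (0, P.z0)).2 P.z0

def K : ℕ := (2 * P.N + 2) * P.H + (P.N + 1) * (P.N + 2) * P.L + 2 * P.B + 4 * P.C

/-! ### travel -/

def tv : ℕ → List ℕ → ℕ
  | p, [] => P.d p P.z0
  | p, j :: l => P.d p j + tv j l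

theorem d_tri (u v x : ℕ) : P.d u x ≤ P.d u v + P.d v x := by unfold d; omega

theorem d_comm (u v : ℕ) : P.d u v = P.d v u := by unfold d; omega

theorem run_ge (l : List ℕ) (s : ℕ × ℕ) :
    s.1 + P.tv s.2 l + (l.map P.hand).sum ≤
      (l.foldl P.st s).1 + P.d (l.foldl P.st s).2 P.z0 := by
  induction l generalizing s with
  | nil => simp [tv]
  | cons j l ih =>
    refine le_trans ?_ (ih (P.st s j))
    simp only [tv, List.map_cons, List.sum_cons, st]
    have := le_max_left (s.1 + P.d s.2 j) (P.rel j)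
    omega

theorem run_split (l1 l2 : List ℕ) (j : ℕ) (s : ℕ × ℕ) :
    P.rel j + P.hand j + P.tv j l2 + (l2.map P.hand).sum ≤
      ((l1 ++ j :: l2).foldl P.st s).1 + P.d ((l1 ++ j :: l2).foldl P.st s).2 P.z0 := by
  rw [List.foldl_append, List.foldl_cons]
  refine le_trans ?_ (P.run_ge l2 (P.st (l1.foldl P.st s) j))
  simp only [st]
  have := le_max_right ((l1.foldl P.st s).1 + P.d (l1.foldl P.st s).2 j) (P.rel j)
  omega

theorem tv_ge_d (l : List ℕ) (p z : ℕ) (F : List ℕ) :
    P.d p z + P.tv z F ≤ P.tv p (l ++ z :: F) := by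
  induction l generalizing p with
  | nil => simp [tv]
  | cons j l ih =>
    have h1 := ih j
    have h2 := P.d_tri p j z
    simp only [List.cons_append, tv]
    omega

theorem tv_ge_mem (l : List ℕ) (p z y : ℕ) (F : List ℕ) (hy : y ∈ l) :
    P.d p y + P.d y z + P.tv z F ≤ P.tv p (l ++ z :: F) := by
  obtain ⟨l1, l2, rfl⟩ := List.append_of_mem hy
  have h1 := P.tv_ge_d l1 p y (l2 ++ z :: F)
  have h2 := P.tv_ge_d l2 y z F
  rw [List.append_assoc, List.cons_append]
  omega

theorem tv_ge_mem' (l : List ℕ) (p y : ℕ) (hy : y ∈ l) :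
    P.d p y + P.d y P.z0 ≤ P.tv p l := by
  obtain ⟨l1, l2, rfl⟩ := List.append_of_mem hy
  have h1 := P.tv_ge_d l1 p y l2
  have h3 : ∀ (l : List ℕ) (y : ℕ), P.d y P.z0 ≤ P.tv y l := by
    intro l
    induction l with
    | nil => intro y; simp [tv]
    | cons j l ih =>
      intro y
      have := ih j
      have := P.d_tri y j P.z0
      simp only [tv]; omega
  have := h3 l2 y
  omega

/-! ### kinds of vertices -/

theorem pos_item {i : ℕ} (hi : i < P.N) : P.pos (2 * i + 1) = (P.N - i) * P.L + P.a i := by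
  unfold pos
  rw [if_neg (by omega), if_neg (by omega), if_pos (by omega), show (2 * i + 1 - 1) / 2 = i by omega,
    show (2 * i + 1) / 2 = i by omega]

theorem pos_odd {i : ℕ} (hi : i < P.N) : P.pos (2 * i + 2) = (P.N - i) * P.L := by
  unfold pos
  rw [if_neg (by omega), if_neg (by omega), if_neg (by omega), show (2 * i + 2 - 1) / 2 = i by omega]
  rfl

theorem pos_far {u : ℕ} (hu : 2 * P.N < u) : P.pos u = 0 := by
  unfold pos; rw [if_neg (by omega), if_pos hu]

theorem pos_zero : P.pos 0 = (P.N + 1) * P.L := by simp [pos]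

theorem not_big {u : ℕ} (h : P.big u = false) : ∃ i < P.N, u = 2 * i + 1 := by
  unfold big at h
  simp only [decide_eq_false_iff_not, not_or] at h
  exact ⟨u / 2, by omega, by omega⟩

theorem big_item {i : ℕ} (hi : i < P.N) : P.big (2 * i + 1) = false := by
  unfold big; rw [decide_eq_false_iff_not]; omega

theorem big_zero : P.big 0 = true := by simp [big]

theorem big_odd (i : ℕ) : P.big (2 * i + 2) = true := by unfold big; rw [decide_eq_true_eq]; omega

theorem big_far {u : ℕ} (h : 2 * P.N < u) : P.big u = true := by unfold big; simp [h]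

theorem hand_eq (u : ℕ) : P.hand u = (if P.big u then P.H else 0) + 2 * P.w u := by
  unfold hand w; split_ifs <;> simp

theorem hand_sum (l : List ℕ) :
    (l.map P.hand).sum = P.H * l.countP P.big + 2 * (l.map P.w).sum := by
  induction l with
  | nil => simp
  | cons j l ih =>
    rw [List.map_cons, List.sum_cons, ih, List.countP_cons, List.map_cons, List.sum_cons, hand_eq]
    split_ifs <;> ring

theorem rel_ge_lab {u : ℕ} (h : P.big u = true) (hu : u < 3 * P.N + 2) :
    P.lab u * P.H ≤ P.rel u ∧ P.lab u ≤ 2 * P.N + 1 := by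
  unfold big at h
  simp only [decide_eq_true_eq] at h
  unfold lab rel
  split_ifs
  · exact ⟨le_rfl, le_rfl⟩
  · refine ⟨?_, by omega⟩
    have : 2 * (u - 2 * P.N - 1) = 2 * P.N := by omega
    rw [this]; omega
  · exact ⟨le_rfl, by omega⟩
  · omega
  · omega
  · exact ⟨le_rfl, by omega⟩

theorem rel_item {i : ℕ} (hi : i < P.N) : P.rel (2 * i + 1) = (2 * i + 1) * P.H := by
  unfold rel
  rw [if_neg (by omega), if_neg (by omega), if_neg (by omega), if_pos (by omega)]

end Par

/-! ### lists -/

theorem eq_range_of_le (q : List ℕ) (hn : q.Nodup) (h : ∀ i (hi : i < q.length), q[i] ≤ i) :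
    q = List.range q.length := by
  have key : ∀ i (hi : i < q.length), q[i] = i := by
    intro i
    induction i using Nat.strong_induction_on with
    | _ i ih =>
      intro hi
      by_contra hne
      have hlt : q[i] < i := lt_of_le_of_ne (h i hi) hne
      have h1 := ih q[i] hlt (by omega)
      have := (List.Nodup.getElem_inj_iff hn).1 h1
      omega
  apply List.ext_getElem (by simp)
  intro i h1 h2
  rw [key i h1]; simp

theorem filter_split (p : ℕ → Bool) (l : List ℕ) (i : ℕ) (hi : i < (l.filter p).length) :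
    ∃ l1 j l2, l = l1 ++ j :: l2 ∧ p j = true ∧ l1.countP p = i ∧ (l.filter p)[i] = j := by
  induction l generalizing i with
  | nil => simp at hi
  | cons x l ih =>
    by_cases hx : p x = true
    · have e : (x :: l).filter p = x :: l.filter p := by simp [hx]
      cases i with
      | zero => exact ⟨[], x, l, rfl, hx, rfl, by simp [e]⟩
      | succ i =>
        have hi' : i < (l.filter p).length := by rw [e] at hi; simpa using hi
        obtain ⟨l1, j, l2, h1, h2, h3, h4⟩ := ih i hi'
        exact ⟨x :: l1, j, l2, by rw [h1]; rfl, h2, by rw [List.countP_cons, h3]; simp [hx],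
          by simp only [e, List.getElem_cons_succ]; exact h4⟩
    · have e : (x :: l).filter p = l.filter p := by simp [hx]
      have hi' : i < (l.filter p).length := by rw [e] at hi; exact hi
      obtain ⟨l1, j, l2, h1, h2, h3, h4⟩ := ih i hi'
      exact ⟨x :: l1, j, l2, by rw [h1]; rfl, h2, by rw [List.countP_cons, h3]; simp [hx],
        by simp only [e]; exact h4⟩

theorem filter_cons_split (p : ℕ → Bool) (f : ℕ → ℕ) (l : List ℕ) (x : ℕ) (xs : List ℕ)
    (h : (l.filter p).map f = x :: xs) :
    ∃ l1 j l2, l = l1 ++ j :: l2 ∧ p j = true ∧ f j = x ∧ l1.countP p = 0 ∧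
      (l2.filter p).map f = xs := by
  induction l with
  | nil => simp at h
  | cons y l ih =>
    by_cases hy : p y = true
    · have e : (y :: l).filter p = y :: l.filter p := by simp [hy]
      rw [e, List.map_cons, List.cons.injEq] at h
      exact ⟨[], y, l, rfl, hy, h.1, rfl, h.2⟩
    · have e : (y :: l).filter p = l.filter p := by simp [hy]
      rw [e] at h
      obtain ⟨l1, j, l2, h1, h2, h3, h4, h5⟩ := ih h
      exact ⟨y :: l1, j, l2, by rw [h1]; rfl, h2, h3, by rw [List.countP_cons, h4]; simp [hy], h5⟩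

end Pool.Agent.Run7.h465.LV
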