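import Pool.Agent.H38.NP.Api

/-!
The single-vehicle scheduling problem on a line with release and handling times.
-/

namespace Pool.Agent.Run7.h465.LV

open Pool.Agent.H38.NP

/-- An instance of the decision version of the single-vehicle scheduling problem on a path. The
vertices of the path are `0, 1, ..., n - 1` in the order along the line, where `n` is the length of
the list `rel`; every vertex holds one job. All numbers except the name of the start vertex are
written in binary. -/
structure Inst where
  /-- the start vertex -/
  start : ℕ
  /-- `fwd[i]` is the travel time from vertex `i` to vertex `i + 1` -/
  fwd : List Bin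
  /-- `bwd[i]` is the travel time from vertex `i + 1` to vertex `i` -/
  bwd : List Bin
  /-- the release times -/
  rel : List Bin
  /-- the handling times -/
  hand : List Bin
  /-- the bound `K` for the completion time -/
  bound : Bin

/-- An instance is encoded as the tuple of its components. -/
instance : Enc Inst := ⟨fun I => enc (I.start, I.fwd, I.bwd, I.rel, I.hand, I.bound)⟩

/-- The number of vertices (and of jobs). -/
def Inst.n (I : Inst) : ℕ := I.rel.length

/-- The entry with number `i` of a list of binary numbers. -/
def at' (l : List Bin) (i : ℕ) : ℕ := (l.getD i ⟨0⟩).val

/-- Well-formed instances: the start vertex is a vertex, the `n - 1` edges have travel times in both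
directions, and every job has a release time and a handling time. -/
def IsInst (I : Inst) : Prop :=
  I.start < I.n ∧ I.fwd.length + 1 = I.n ∧ I.bwd.length + 1 = I.n ∧ I.hand.length = I.n

/-- The travel time along the path from vertex `u` to vertex `v`: the sum of the travel times of the
edges in this direction (one of the two sums is empty). -/
def travel (I : Inst) (u v : ℕ) : ℕ :=
  (∑ i ∈ Finset.Ico u v, at' I.fwd i) + ∑ i ∈ Finset.Ico v u, at' I.bwd i

/-- The vehicle is at the vertex `s.2` at time `s.1`. It moves to the vertex `j`, waits until
the release time of the job `j` if it arrives earlier, and processes the job `j`. The result is the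
time at which this job is finished, and the new vertex. -/
def step (I : Inst) (s : ℕ × ℕ) (j : ℕ) : ℕ × ℕ :=
  (max (s.1 + travel I s.2 j) (at' I.rel j) + at' I.hand j, j)

/-- The completion time of a schedule `π` (the list of the jobs in the order in which they are
processed): the vehicle starts at time `0` at the start vertex, processes the jobs in the given
order and returns to the start vertex. -/
def completion (I : Inst) (π : List ℕ) : ℕ :=
  let s := π.foldl (step I) (0, I.start)
  s.1 + travel I s.2 I.start

/-- There is a schedule, i.e. a permutation of all jobs, with completion time at most `K`. -/
def HasSchedule (I : Inst) : Prop :=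
  ∃ π : List ℕ, π.Perm (List.range I.n) ∧ completion I π ≤ I.bound.val

/-- All handling times are positive. -/
def PosHand (I : Inst) : Prop := ∀ i < I.n, 0 < at' I.hand i

/-- All travel times are positive. -/
def PosTravel (I : Inst) : Prop := ∀ i, i + 1 < I.n → 0 < at' I.fwd i ∧ 0 < at' I.bwd i

/-- The travel times are the same in both directions. -/
def Symmetric (I : Inst) : Prop := I.fwd = I.bwd

end Pool.Agent.Run7.h465.LV
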