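import Pool.Agent.Run7.h465.LV.Core

/-!
A schedule with a small completion time gives a solution of SUBSET SUM.
-/

namespace Pool.Agent.Run7.h465.LV

theorem filter_append_split (p : ℕ → Bool) (f : ℕ → ℕ) (xs : List ℕ) (l : List ℕ) (x : ℕ)
    (ys : List ℕ) (h : (l.filter p).map f = xs ++ x :: ys) :
    ∃ l1 j l2, l = l1 ++ j :: l2 ∧ p j = true ∧ f j = x ∧ (l1.filter p).map f = xs ∧
      (l2.filter p).map f = ys := by
  induction xs generalizing l with
  | nil =>
    obtain ⟨l1, j, l2, h1, h2, h3, h4, h5⟩ := filter_cons_split p f l x ys h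
    refine ⟨l1, j, l2, h1, h2, h3, ?_, h5⟩
    rw [List.countP_eq_length_filter, List.length_eq_zero_iff] at h4
    rw [h4]; rfl
  | cons y xs ih =>
    obtain ⟨l1, j, l2, h1, h2, h3, h4, h5⟩ := filter_cons_split p f l y _ h
    obtain ⟨m1, k, m2, g1, g2, g3, g4, g5⟩ := ih l2 h5
    rw [List.countP_eq_length_filter, List.length_eq_zero_iff] at h4
    exact ⟨l1 ++ j :: m1, k, m2, by rw [h1, g1]; simp, g2, g3,
      by simp [List.filter_append, h4, h2, h3, g4], g5⟩

theorem range_odd (n : ℕ) :
    List.range (2 * n + 1) = 0 :: (List.range n).flatMap fun i => [2 * i + 1, 2 * i + 2] := by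
  induction n with
  | zero => rfl
  | succ n ih =>
    rw [show 2 * (n + 1) + 1 = 2 * n + 1 + 1 + 1 by ring, List.range_succ, List.range_succ, ih,
      List.range_succ (n := n), List.flatMap_append]
    simp

theorem range_decomp (N : ℕ) : List.range (3 * N + 2) =
    (0 :: (List.range N).flatMap fun i => [2 * i + 1, 2 * i + 2]) ++
      (List.range (N + 1)).map (fun k => 2 * N + 1 + k) := by
  rw [← range_odd, ← List.range_add]
  congr 1; ring

variable (P : Par)

namespace Par

theorem sum_w (l : List ℕ) (hl : l.Nodup) :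
    (l.map P.w).sum = ∑ t ∈ Finset.range P.N, if 2 * t + 1 ∈ l then P.a t else 0 := by
  rw [← List.sum_toFinset _ hl, ← Finset.sum_filter]
  have h1 : ∑ t ∈ (Finset.range P.N).filter (fun t => 2 * t + 1 ∈ l), P.a t =
      ∑ t ∈ (Finset.range P.N).filter (fun t => 2 * t + 1 ∈ l), P.w (2 * t + 1) := by
    refine Finset.sum_congr rfl fun t ht => ?_
    have ht' := Finset.mem_range.1 (Finset.mem_filter.1 ht).1
    unfold w
    rw [P.big_item ht', show (2 * t + 1) / 2 = t by omega]; rfl
  rw [h1]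
  have h2 : ∑ t ∈ (Finset.range P.N).filter (fun t => 2 * t + 1 ∈ l), P.w (2 * t + 1) =
      ∑ u ∈ ((Finset.range P.N).filter (fun t => 2 * t + 1 ∈ l)).image (fun t => 2 * t + 1),
        P.w u := by
    rw [Finset.sum_image]
    intro x _ y _ h; simp only at h; omega
  rw [h2]
  symm
  apply Finset.sum_subset
  · intro u hu
    obtain ⟨t, ht, rfl⟩ := Finset.mem_image.1 hu
    exact List.mem_toFinset.2 (Finset.mem_filter.1 ht).2
  · intro u hu hnu
    unfold w
    by_cases hb : P.big u = true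
    · rw [if_pos hb]
    · exfalso
      obtain ⟨i, hi, rfl⟩ := P.not_big (by simpa using hb)
      exact hnu (Finset.mem_image.2 ⟨i, Finset.mem_filter.2 ⟨Finset.mem_range.2 hi,
        List.mem_toFinset.1 hu⟩, rfl⟩)

theorem w_big {u : ℕ} (h : P.big u = true) : P.w u = 0 := by unfold w; rw [if_pos h]

theorem exists_far {i : ℕ} (hi : i < P.N) (ha : ∀ t < P.N, P.a t ≤ P.L) (W : List ℕ) (g : ℕ)
    (hg : g ∈ W) (hgp : P.pos g = (P.N - i) * P.L) (hW : W.Nodup)
    (hit : ∀ t < P.N, 2 * t + 1 ∈ W → t ≤ i) :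
    ∃ y ∈ W, (P.N - i) * P.L + (W.map P.w).sum ≤ P.pos y := by
  classical
  rw [P.sum_w W hW]
  by_cases h : ∃ t, t < P.N ∧ 2 * t + 1 ∈ W
  · set j := Nat.find h with hj
    have hj1 : j < P.N := (Nat.find_spec h).1
    have hj2 : 2 * j + 1 ∈ W := (Nat.find_spec h).2
    have hj3 : ∀ t, t < P.N → 2 * t + 1 ∈ W → j ≤ t := fun t h1 h2 => Nat.find_min' h ⟨h1, h2⟩
    have hji : j ≤ i := hit j hj1 hj2
    refine ⟨_, hj2, ?_⟩
    rw [P.pos_item hj1]
    have h1 : ∑ t ∈ Finset.range P.N, (if 2 * t + 1 ∈ W then P.a t else 0) ≤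
        ∑ t ∈ Finset.Icc j i, P.a t := by
      rw [← Finset.sum_filter]
      refine Finset.sum_le_sum_of_subset fun t ht => ?_
      obtain ⟨h1, h2⟩ := Finset.mem_filter.1 ht
      have h1 := Finset.mem_range.1 h1
      exact Finset.mem_Icc.2 ⟨hj3 t h1 h2, hit t h1 h2⟩
    have h2 : ∑ t ∈ Finset.Icc j i, P.a t ≤ P.a j + (i - j) * P.L := by
      rw [← Finset.add_sum_Ioc_eq_sum_Icc (f := P.a) hji]
      have : ∑ t ∈ Finset.Ioc j i, P.a t ≤ (Finset.Ioc j i).card * P.L :=
        Finset.sum_le_card_nsmul _ _ _ (fun t ht => ha t (by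
          have := Finset.mem_Ioc.1 ht; omega))
      rw [Nat.card_Ioc] at this
      omega
    have h3 : (P.N - j) * P.L = (P.N - i) * P.L + (i - j) * P.L := by
      rw [← add_mul]; congr 1; omega
    omega
  · refine ⟨g, hg, ?_⟩
    have : ∑ t ∈ Finset.range P.N, (if 2 * t + 1 ∈ W then P.a t else 0) = 0 := by
      refine Finset.sum_eq_zero fun t ht => if_neg fun h' => h ⟨t, Finset.mem_range.1 ht, h'⟩
    rw [this, hgp]; omega

theorem trip {i : ℕ} (hi : i < P.N) (ha : ∀ t < P.N, P.a t ≤ P.L) (W : List ℕ) (g : ℕ)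
    (hg : g ∈ W) (hgp : P.pos g = (P.N - i) * P.L) (hW : W.Nodup)
    (hit : ∀ t < P.N, 2 * t + 1 ∈ W → t ≤ i) (z z' : ℕ) (hz : P.pos z = 0) (hz' : P.pos z' = 0)
    (F : List ℕ) :
    2 * ((P.N - i) * P.L) + 2 * (W.map P.w).sum + P.tv z' F ≤ P.tv z (W ++ z' :: F) := by
  obtain ⟨y, hy, h⟩ := P.exists_far hi ha W g hg hgp hW hit
  have h1 := P.tv_ge_mem W z z' y F hy
  unfold d at h1
  rw [hz, hz'] at h1
  omega

theorem lab_odd {i u : ℕ} (hi : i < P.N) (hb : P.big u = true) (h : P.lab u = 2 * i + 1) :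
    u = 2 * i + 2 := by
  unfold lab at h
  split_ifs at h <;> omega

theorem lab_even {i u : ℕ} (hb : P.big u = true) (h : P.lab u = 2 * i) :
    2 * P.N < u ∧ u = 2 * P.N + 1 + i := by
  unfold lab at h
  unfold big at hb
  simp only [decide_eq_true_eq] at hb
  split_ifs at h <;> omega

theorem lab_last {u : ℕ} (hb : P.big u = true) (h : P.lab u = 2 * P.N + 1) : u = 0 := by
  unfold lab at h
  split_ifs at h <;> omega

theorem TL (ha : ∀ t < P.N, P.a t ≤ P.L) (m : ℕ) : ∀ (i : ℕ), i + (m + 1) = P.N →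
    ∀ (E F : List ℕ) (z z' : ℕ),
    (E.filter P.big).map P.lab = List.range' (2 * i + 1) (2 * m + 1) → E.Nodup →
    (∀ l1 t l2, t < P.N → E = l1 ++ (2 * t + 1) :: l2 → 2 * t + 1 ≤ 2 * i + 1 + l1.countP P.big) →
    P.pos z = 0 → P.pos z' = 0 →
    ∑ k ∈ Finset.Ico i P.N, 2 * ((P.N - k) * P.L) + 2 * (E.map P.w).sum + P.tv z' F ≤
      P.tv z (E ++ z' :: F) := by
  induction m with
  | zero =>
    intro i hi E F z z' hE hnd hit hz hz'
    obtain ⟨l1, g, l2, h1, h2, h3, h4, h5⟩ := filter_cons_split P.big P.lab E (2 * i + 1) []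
      (by simpa using hE)
    have hg := P.lab_odd (by omega) h2 h3
    have hcount : E.countP P.big = 1 := by
      have := congrArg List.length hE
      rw [List.countP_eq_length_filter]; simpa using this
    have hs : Finset.Ico i P.N = {i} := by
      ext x; simp only [Finset.mem_Ico, Finset.mem_singleton]; omega
    rw [hs, Finset.sum_singleton]
    refine P.trip (by omega) ha E g (by rw [h1]; simp) (by rw [hg]; exact P.pos_odd (by omega)) hnd
      (fun t ht hm => ?_) z z' hz hz' F
    obtain ⟨p, q, hpq⟩ := List.append_of_mem hm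
    have h6 := hit p t q ht hpq
    have h7 : p.countP P.big ≤ E.countP P.big := by
      rw [hpq, List.countP_append]; omega
    omega
  | succ m ih =>
    intro i hi E F z z' hE hnd hit hz hz'
    have hr : List.range' (2 * i + 1) (2 * (m + 1) + 1) =
        (2 * i + 1) :: (2 * (i + 1)) :: List.range' (2 * (i + 1) + 1) (2 * m + 1) := by
      rw [show 2 * (m + 1) + 1 = (2 * m + 1) + 1 + 1 by ring, List.range'_succ, List.range'_succ]
      rfl
    rw [hr] at hE
    obtain ⟨l1, g, R, h1, h2, h3, h4, h5⟩ := filter_cons_split P.big P.lab E _ _ hE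
    obtain ⟨l2, z1, E', g1, g2, g3, g4, g5⟩ := filter_cons_split P.big P.lab R _ _ h5
    have hg := P.lab_odd (by omega) h2 h3
    have hz1 := P.pos_far (P.lab_even g2 g3).1
    have hE2 : E = (l1 ++ g :: l2) ++ z1 :: E' := by rw [h1, g1]; simp
    have hnd2 := hnd
    rw [hE2] at hnd2
    have hndW := (List.nodup_append.1 hnd2).1
    have hndE' := (List.nodup_cons.1 (List.nodup_append.1 hnd2).2.1).2
    have hcW : (l1 ++ g :: l2).countP P.big = 1 := by
      rw [List.countP_append, List.countP_cons, h4, g4]; simp [h2]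
    have t1 := P.trip (i := i) (by omega) ha (l1 ++ g :: l2) g (by simp)
      (by rw [hg]; exact P.pos_odd (by omega)) hndW (fun t ht hm => by
        obtain ⟨p, q, hpq⟩ := List.append_of_mem hm
        have h6 := hit p t (q ++ z1 :: E') ht (by rw [hE2, hpq]; simp)
        have h7 : p.countP P.big ≤ (l1 ++ g :: l2).countP P.big := by
          rw [hpq, List.countP_append]; omega
        omega) z z1 hz hz1 (E' ++ z' :: F)
    have t2 := ih (i + 1) (by omega) E' F z1 z' g5 hndE' (fun p t q ht hpq => by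
      have h6 := hit ((l1 ++ g :: l2) ++ z1 :: p) t q ht (by rw [hE2, hpq]; simp)
      rw [List.countP_append, hcW, List.countP_cons, if_pos g2] at h6
      omega) hz1 hz'
    have hs : ∑ k ∈ Finset.Ico i P.N, 2 * ((P.N - k) * P.L) = 2 * ((P.N - i) * P.L) +
        ∑ k ∈ Finset.Ico (i + 1) P.N, 2 * ((P.N - k) * P.L) :=
      Finset.sum_eq_sum_Ico_succ_bot (by omega) _
    have hw : (E.map P.w).sum = ((l1 ++ g :: l2).map P.w).sum + (E'.map P.w).sum := by
      rw [hE2, List.map_append (l₁ := l1 ++ g :: l2), List.sum_append, List.map_cons, List.sum_cons,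
        P.w_big g2, Nat.zero_add]
    rw [hs, hw, hE2, List.append_assoc, List.cons_append]
    omega

theorem count_range : (List.range (3 * P.N + 2)).countP P.big = 2 * P.N + 2 := by
  rw [range_decomp, List.countP_append, List.countP_cons, P.big_zero]
  have h1 : ∀ n ≤ P.N, ((List.range n).flatMap fun i => [2 * i + 1, 2 * i + 2]).countP P.big = n := by
    intro n hn
    induction n with
    | zero => rfl
    | succ n ih =>
      rw [List.range_succ, List.flatMap_append, List.countP_append, ih (by omega)]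
      simp [P.big_item (show n < P.N by omega), P.big_odd]
  have h2 : ((List.range (P.N + 1)).map (fun k => 2 * P.N + 1 + k)).countP P.big = P.N + 1 := by
    rw [List.countP_eq_length.2]
    · simp
    · intro x hx
      obtain ⟨k, _, rfl⟩ := List.mem_map.1 hx
      exact P.big_far (by omega)
  rw [h1 _ le_rfl, h2]; simp; ring

theorem sum_tri (n : ℕ) : ∑ k ∈ Finset.Ico 0 n, 2 * ((n - k) * P.L) = n * (n + 1) * P.L := by
  rw [← Finset.range_eq_Ico]
  have : ∀ m, ∑ k ∈ Finset.range m, 2 * ((m - k) * P.L) = m * (m + 1) * P.L := by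
    intro m
    induction m with
    | zero => simp
    | succ m ih =>
      rw [Finset.sum_range_succ']
      have : ∑ k ∈ Finset.range m, 2 * ((m + 1 - (k + 1)) * P.L) =
          ∑ k ∈ Finset.range m, 2 * ((m - k) * P.L) :=
        Finset.sum_congr rfl fun k _ => by rw [Nat.add_sub_add_right]
      rw [this, ih, Nat.sub_zero]; ring
  exact this n

theorem lower (hN : 1 ≤ P.N) (ha : ∀ t < P.N, P.a t ≤ P.L)
    (hsum : ∑ t ∈ Finset.range P.N, P.a t = P.B + P.C)
    (hH : (P.N + 1) * (P.N + 2) * P.L + 2 * P.B + 4 * P.C < P.H) (π : List ℕ)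
    (hπ : π.Perm (List.range (3 * P.N + 2))) (hK : P.comp π ≤ P.K) :
    ∃ f : ℕ → Bool, ∑ t ∈ Finset.range P.N, (if f t then P.a t else 0) = P.B := by
  have hnd : π.Nodup := hπ.nodup_iff.2 List.nodup_range
  have hlt : ∀ u ∈ π, u < 3 * P.N + 2 := fun u hu => List.mem_range.1 (hπ.mem_iff.1 hu)
  have hcnt : π.countP P.big = 2 * P.N + 2 := by rw [hπ.countP_eq]; exact P.count_range
  have hKH : P.K < (2 * P.N + 3) * P.H := by
    unfold K
    have : (2 * P.N + 3) * P.H = (2 * P.N + 2) * P.H + P.H := by ring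
    omega
  -- splits
  have hsplit : ∀ l1 j l2, π = l1 ++ j :: l2 →
      P.rel j + P.hand j + P.H * l2.countP P.big ≤ P.K := by
    intro l1 j l2 h
    have h1 := P.run_split l1 l2 j (0, P.z0)
    rw [← h, P.hand_sum] at h1
    have h2 : P.comp π = (π.foldl P.st (0, P.z0)).1 + P.d (π.foldl P.st (0, P.z0)).2 P.z0 := rfl
    omega
  have hsb : ∀ l1 j l2, π = l1 ++ j :: l2 → P.big j = true → P.lab j ≤ l1.countP P.big := by
    intro l1 j l2 h hb
    have h1 := hsplit l1 j l2 h
    obtain ⟨h2, h2'⟩ := P.rel_ge_lab hb (hlt j (by rw [h]; simp))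
    have h3 : P.hand j = P.H := by unfold hand; rw [if_pos hb]
    have h4 : (P.lab j + 1 + l2.countP P.big) * P.H < (2 * P.N + 3) * P.H := by
      refine lt_of_le_of_lt ?_ hKH
      have : (P.lab j + 1 + l2.countP P.big) * P.H =
        P.lab j * P.H + P.H + P.H * l2.countP P.big := by ring
      omega
    have h5 := Nat.lt_of_mul_lt_mul_right h4
    rw [h, List.countP_append, List.countP_cons, if_pos hb] at hcnt
    omega
  have hsi : ∀ l1 t l2, t < P.N → π = l1 ++ (2 * t + 1) :: l2 → 2 * t + 1 ≤ l1.countP P.big := by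
    intro l1 t l2 ht h
    have h1 := hsplit l1 _ l2 h
    rw [P.rel_item ht] at h1
    have h4 : (2 * t + 1 + l2.countP P.big) * P.H < (2 * P.N + 3) * P.H := by
      refine lt_of_le_of_lt ?_ hKH
      have : (2 * t + 1 + l2.countP P.big) * P.H =
        (2 * t + 1) * P.H + P.H * l2.countP P.big := by ring
      omega
    have h5 := Nat.lt_of_mul_lt_mul_right h4
    rw [h, List.countP_append, List.countP_cons, P.big_item ht] at hcnt
    simp only [Bool.false_eq_true, if_false] at hcnt
    omega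
  -- order of the big jobs
  have hq : (π.filter P.big).map P.lab = List.range (2 * P.N + 2) := by
    have hlen : ((π.filter P.big).map P.lab).length = 2 * P.N + 2 := by
      rw [List.length_map, ← List.countP_eq_length_filter, hcnt]
    rw [← hlen]
    refine eq_range_of_le _ ?_ ?_
    · refine List.Nodup.map_on ?_ (hnd.filter _)
      intro x hx y hy hxy
      obtain ⟨hx1, hx2⟩ := List.mem_filter.1 hx
      obtain ⟨hy1, hy2⟩ := List.mem_filter.1 hy
      have := hlt x hx1
      have := hlt y hy1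
      unfold lab at hxy
      unfold big at hx2 hy2
      simp only [decide_eq_true_eq] at hx2 hy2
      split_ifs at hxy <;> omega
    · intro i hi
      rw [List.length_map] at hi
      obtain ⟨l1, j, l2, h1, h2, h3, h4⟩ := filter_split P.big π i hi
      rw [List.getElem_map, h4]
      have := hsb l1 j l2 h1 h2
      omega
  have hr : List.range (2 * P.N + 2) = 0 :: (List.range' 1 (2 * (P.N - 1) + 1) ++
      [2 * P.N, 2 * P.N + 1]) := by
    rw [List.range_eq_range', show 2 * P.N + 2 = 1 + ((2 * (P.N - 1) + 1) + 2) by omega,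
      ← List.range'_append_1, ← List.range'_append_1]
    simp only [List.range'_one, List.cons_append, List.nil_append, List.cons.injEq, true_and]
    congr 1
    rw [show 0 + 1 + (2 * (P.N - 1) + 1) = 2 * P.N by omega]
    rfl
  rw [hr] at hq
  obtain ⟨l0, g0, R, h1, h2, h3, h4, h5⟩ := filter_cons_split P.big P.lab π _ _ hq
  have hl0 : l0 = [] := by
    by_contra hne
    obtain ⟨u, hu⟩ := List.exists_mem_of_ne_nil _ hne
    obtain ⟨p, q, hpq⟩ := List.append_of_mem hu
    have hub : P.big u = false := by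
      by_contra hb
      have hb' : P.big u = true := by simpa using hb
      have := List.countP_pos_iff.2 ⟨u, hu, hb'⟩
      omega
    obtain ⟨t, ht, rfl⟩ := P.not_big hub
    have h6 := hsi p t (q ++ g0 :: R) ht (by rw [h1, hpq]; simp)
    have h7 : p.countP P.big ≤ l0.countP P.big := by rw [hpq, List.countP_append]; omega
    omega
  subst hl0
  rw [List.nil_append] at h1
  obtain ⟨E, g, F, e1, e2, e3, e4, e5⟩ := filter_append_split P.big P.lab _ R _ _ h5
  have hg0 := P.lab_even (i := 0) h2 h3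
  have hg := P.lab_even (i := P.N) e2 e3
  have hgpos := P.pos_far hg.1
  have hg0pos := P.pos_far hg0.1
  obtain ⟨f1, x, f2, k1, k2, k3, k4, k5⟩ := filter_cons_split P.big P.lab F _ _ e5
  have hx := P.lab_last k2 k3
  have hcF : F.countP P.big = 1 := by
    have := congrArg List.length e5
    rw [List.countP_eq_length_filter]; simpa using this
  have hπ' : π = g0 :: (E ++ g :: F) := by rw [h1, e1]
  have hnd2 := hnd
  rw [hπ'] at hnd2
  have hndE := (List.nodup_append.1 (List.nodup_cons.1 hnd2).2).1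
  have hndF := (List.nodup_cons.1 (List.nodup_append.1 (List.nodup_cons.1 hnd2).2).2.1).2
  have hcE : g0 :: E = [g0] ++ E := rfl
  -- travel
  have t1 := P.TL ha (P.N - 1) 0 (by omega) E F g0 g (by simpa using e4) hndE
    (fun l1 t l2 ht hE => by
      have := hsi (g0 :: l1) t (l2 ++ g :: F) ht (by rw [hπ', hE]; simp)
      rw [List.countP_cons, if_pos h2] at this
      omega) hg0pos hgpos
  rw [P.sum_tri] at t1
  have t2 := P.tv_ge_mem' F g 0 (by rw [k1, hx]; simp)
  have hz0 : P.pos P.z0 = 0 := P.pos_far (by unfold z0; omega)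
  unfold d at t2
  rw [hgpos, P.pos_zero, hz0] at t2
  -- sums
  have hwπ : (π.map P.w).sum = P.B + P.C := by
    rw [P.sum_w π hnd, ← hsum]
    refine Finset.sum_congr rfl fun t ht => if_pos (hπ.mem_iff.2 (List.mem_range.2 ?_))
    have := Finset.mem_range.1 ht
    omega
  have hw2 : (π.map P.w).sum = (E.map P.w).sum + (F.map P.w).sum := by
    rw [hπ', List.map_cons, List.sum_cons, List.map_append, List.sum_append, List.map_cons,
      List.sum_cons, P.w_big h2, P.w_big e2]; omega
  -- total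
  have c1 := P.run_ge π (0, P.z0)
  rw [P.hand_sum, hcnt, hwπ] at c1
  have c2 : P.tv P.z0 π = P.d P.z0 g0 + P.tv g0 (E ++ g :: F) := by rw [hπ']; rfl
  have hcomp : P.comp π = (π.foldl P.st (0, P.z0)).1 + P.d (π.foldl P.st (0, P.z0)).2 P.z0 := rfl
  simp only at c1
  rw [c2, ← hcomp] at c1
  have hKe : P.K = (2 * P.N + 2) * P.H + (P.N + 1) * (P.N + 2) * P.L + 2 * P.B + 4 * P.C := rfl
  have r1 : (P.N + 1) * (P.N + 2) * P.L = P.N * (P.N + 1) * P.L + 2 * ((P.N + 1) * P.L) := by ring
  have r2 : P.H * (2 * P.N + 2) = (2 * P.N + 2) * P.H := by ring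
  have i1 : (E.map P.w).sum ≤ P.C := by omega
  -- last trip
  have c3 := P.run_split (g0 :: E) F g (0, P.z0)
  have hsp : g0 :: E ++ g :: F = π := by rw [hπ']; rfl
  rw [hsp, P.hand_sum, hcF, ← hcomp] at c3
  have hrel : P.rel g = 2 * P.N * P.H + P.N * (P.N + 1) * P.L + 4 * P.C := by
    unfold rel; rw [if_neg (by omega), if_pos (by omega)]
  have hhg : P.hand g = P.H := by unfold hand; rw [if_pos e2]
  rw [hrel, hhg] at c3
  have r3 : (2 * P.N + 2) * P.H = 2 * P.N * P.H + P.H + P.H := by ring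
  have i2 : (F.map P.w).sum ≤ P.B := by omega
  have i3 : (F.map P.w).sum = P.B := by omega
  refine ⟨fun t => decide (2 * t + 1 ∈ F), ?_⟩
  rw [← i3, P.sum_w F hndF]
  exact Finset.sum_congr rfl fun t _ => by simp

end Par

end Pool.Agent.Run7.h465.LV
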