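import Pool.Agent.Run7.h465.LV.Lower

/-!
A solution of SUBSET SUM gives a schedule.
-/

namespace Pool.Agent.Run7.h465.LV

variable (P : Par)

namespace Par

/-- the block of the trip with number `i` -/
def blk (f : ℕ → Bool) (i : ℕ) : List ℕ :=
  (2 * i + 2) :: (if f i then [] else [2 * i + 1]) ++ [2 * P.N + 1 + (i + 1)]

/-- the items of the last trip -/
def tl (f : ℕ → Bool) (i : ℕ) : List ℕ := if f i then [2 * i + 1] else []

/-- the schedule -/
def sch (f : ℕ → Bool) : List ℕ :=
  (2 * P.N + 1) :: ((List.range P.N).flatMap (P.blk f)) ++ 0 :: ((List.range P.N).flatMap (tl f))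

theorem perm_flatMap_congr {α β : Type} (l : List α) (f g : α → List β)
    (h : ∀ x ∈ l, (f x).Perm (g x)) : (l.flatMap f).Perm (l.flatMap g) := by
  induction l with
  | nil => simp
  | cons x l ih =>
    rw [List.flatMap_cons, List.flatMap_cons]
    exact (h x List.mem_cons_self).append (ih fun y hy => h y (List.mem_cons_of_mem _ hy))

theorem sch_perm (f : ℕ → Bool) : (P.sch f).Perm (List.range (3 * P.N + 2)) := by
  rw [range_decomp]
  unfold sch
  have h1 : ((List.range P.N).flatMap (P.blk f) ++ (List.range P.N).flatMap (tl f)).Perm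
      ((List.range P.N).flatMap (fun i => [2 * i + 1, 2 * i + 2]) ++
        (List.range P.N).map (fun k => 2 * P.N + 1 + (k + 1))) := by
    refine (List.flatMap_append_perm _ _ _).trans ?_
    have h2 : ((List.range P.N).map (fun k => 2 * P.N + 1 + (k + 1))) =
        (List.range P.N).flatMap (fun k => [2 * P.N + 1 + (k + 1)]) := by
      simp [List.map_eq_flatMap]
    rw [h2]
    refine List.Perm.trans ?_ (List.flatMap_append_perm _ _ _).symm
    refine perm_flatMap_congr _ _ _ fun i _ => ?_
    unfold blk tl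
    rcases f i with _ | _
    · simp only [Bool.false_eq_true, if_false, List.append_nil, List.cons_append, List.nil_append]
      exact List.Perm.swap _ _ _
    · simp only [if_true, List.append_nil, List.cons_append, List.nil_append]
      refine List.Perm.trans ?_ (List.Perm.swap _ _ _)
      exact List.Perm.cons _ (List.Perm.swap _ _ _)
  have h3 : (List.range (P.N + 1)).map (fun k => 2 * P.N + 1 + k) =
      (2 * P.N + 1) :: (List.range P.N).map (fun k => 2 * P.N + 1 + (k + 1)) := by
    rw [List.range_succ_eq_map, List.map_cons, List.map_map]; rfl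
  rw [h3]
  -- both sides are rearranged to `a :: 0 :: (blocks ++ tails)`
  have h4 : ((2 * P.N + 1) :: (List.range P.N).flatMap (P.blk f) ++
      0 :: (List.range P.N).flatMap (tl f)).Perm
      ((2 * P.N + 1) :: 0 :: ((List.range P.N).flatMap (P.blk f) ++
        (List.range P.N).flatMap (tl f))) := by
    rw [List.cons_append]
    exact List.Perm.cons _ List.perm_middle
  have h5 : (0 :: (List.range P.N).flatMap (fun i => [2 * i + 1, 2 * i + 2]) ++
      (2 * P.N + 1) :: (List.range P.N).map (fun k => 2 * P.N + 1 + (k + 1))).Perm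
      ((2 * P.N + 1) :: 0 :: ((List.range P.N).flatMap (fun i => [2 * i + 1, 2 * i + 2]) ++
        (List.range P.N).map (fun k => 2 * P.N + 1 + (k + 1)))) := by
    refine List.perm_middle.trans ?_
    rw [List.cons_append]
  exact h4.trans (((h1.cons 0).cons _).trans h5.symm)

/-- time bound without the big jobs after `i` trips -/
def tau (f : ℕ → Bool) (i : ℕ) : ℕ :=
  ∑ k ∈ Finset.range i, (2 * ((P.N - k) * P.L) + (if f k then 0 else 4 * P.a k))

theorem rel_far {k : ℕ} (hN : 1 ≤ P.N) (hk : k ≤ P.N) (f : ℕ → Bool)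
    (hf : P.tau f P.N = P.N * (P.N + 1) * P.L + 4 * P.C) :
    P.rel (2 * P.N + 1 + k) ≤ 2 * k * P.H + P.tau f k := by
  unfold rel
  rw [if_neg (by omega)]
  by_cases h : k = P.N
  · subst h
    rw [if_pos (by omega), hf]; omega
  · rw [if_neg (by omega), if_pos (by omega), show 2 * P.N + 1 + k - 2 * P.N - 1 = k by omega]
    omega

theorem block_step {i : ℕ} (hN : 1 ≤ P.N) (hi : i < P.N) (f : ℕ → Bool)
    (hf : P.tau f P.N = P.N * (P.N + 1) * P.L + 4 * P.C) (s : ℕ × ℕ)
    (hs : s.1 ≤ (2 * i + 1) * P.H + P.tau f i) (hp : P.pos s.2 = 0) :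
    ((P.blk f i).foldl P.st s).1 ≤ (2 * (i + 1) + 1) * P.H + P.tau f (i + 1) ∧
      P.pos ((P.blk f i).foldl P.st s).2 = 0 := by
  have hr := P.rel_far (k := i + 1) hN (by omega) f hf
  have p1 := P.pos_odd hi
  have p2 := P.pos_item hi
  have p3 : P.pos (2 * P.N + 1 + (i + 1)) = 0 := P.pos_far (by omega)
  have r1 : P.rel (2 * i + 2) = (2 * i + 1) * P.H := by
    unfold rel
    rw [if_neg (by omega), if_neg (by omega), if_neg (by omega), if_neg (by omega)]; rfl
  have r2 := P.rel_item hi
  have h1 : P.hand (2 * i + 2) = P.H := by unfold hand; rw [P.big_odd]; rfl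
  have h2 : P.hand (2 * i + 1) = 2 * P.a i := by
    unfold hand; rw [P.big_item hi, show (2 * i + 1) / 2 = i by omega]; rfl
  have h3 : P.hand (2 * P.N + 1 + (i + 1)) = P.H := by
    unfold hand; rw [P.big_far (by omega)]; rfl
  have ht : P.tau f (i + 1) = P.tau f i + (2 * ((P.N - i) * P.L) +
      (if f i then 0 else 4 * P.a i)) := by unfold tau; rw [Finset.sum_range_succ]
  have e1 : (2 * i + 1) * P.H = 2 * (i * P.H) + P.H := by ring
  have e2 : (2 * (i + 1) + 1) * P.H = 2 * (i * P.H) + P.H + P.H + P.H := by ring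
  have e3 : 2 * (i + 1) * P.H = 2 * (i * P.H) + P.H + P.H := by ring
  rw [ht] at hr ⊢
  rw [e1] at hs r1 r2
  rw [e2]
  rw [e3] at hr
  unfold blk
  rcases hfi : f i with _ | _
  · simp only [hfi, Bool.false_eq_true, if_false, List.cons_append, List.nil_append,
      List.foldl_cons, List.foldl_nil, st, d] at hr ⊢
    rw [p1, p2, p3, hp, r1, r2, h1, h2, h3]
    refine ⟨?_, rfl⟩
    generalize (P.N - i) * P.L = X at *
    generalize i * P.H = Y at *
    omega
  · simp only [hfi, if_true, List.cons_append, List.nil_append,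
      List.foldl_cons, List.foldl_nil, st, d] at hr ⊢
    rw [p1, p3, hp, r1, h1, h3]
    refine ⟨?_, rfl⟩
    generalize (P.N - i) * P.L = X at *
    generalize i * P.H = Y at *
    omega

theorem blocks (hN : 1 ≤ P.N) (f : ℕ → Bool)
    (hf : P.tau f P.N = P.N * (P.N + 1) * P.L + 4 * P.C) (s : ℕ × ℕ)
    (hs : s.1 ≤ P.H) (hp : P.pos s.2 = 0) (i : ℕ) (hi : i ≤ P.N) :
    (((List.range i).flatMap (P.blk f)).foldl P.st s).1 ≤ (2 * i + 1) * P.H + P.tau f i ∧
      P.pos (((List.range i).flatMap (P.blk f)).foldl P.st s).2 = 0 := by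
  induction i with
  | zero => simp [tau]; exact ⟨hs, hp⟩
  | succ i ih =>
    obtain ⟨h1, h2⟩ := ih (by omega)
    rw [List.range_succ, List.flatMap_append, List.foldl_append]
    simp only [List.flatMap_cons, List.flatMap_nil, List.append_nil]
    exact P.block_step hN (by omega) f hf _ h1 h2

theorem tail_step (f : ℕ → Bool) (ha : ∀ t < P.N, P.a t ≤ P.L) (U : ℕ)
    (hU : (2 * P.N + 2) * P.H ≤ U) (s : ℕ × ℕ)
    (hs : s.1 + P.pos s.2 ≤ U + (P.N + 1) * P.L) (hp : P.pos s.2 = (P.N + 1) * P.L) (i : ℕ)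
    (hi : i ≤ P.N) :
    (((List.range i).flatMap (tl f)).foldl P.st s).1 +
      P.pos (((List.range i).flatMap (tl f)).foldl P.st s).2 ≤ U + (P.N + 1) * P.L +
        2 * ∑ k ∈ Finset.range i, (if f k then P.a k else 0) ∧
      (P.N - i + 1) * P.L ≤ P.pos (((List.range i).flatMap (tl f)).foldl P.st s).2 := by
  induction i with
  | zero => simp [hp]; omega
  | succ i ih =>
    obtain ⟨h1, h2⟩ := ih (by omega)
    rw [List.range_succ, List.flatMap_append, List.foldl_append, Finset.sum_range_succ]
    simp only [List.flatMap_cons, List.flatMap_nil, List.append_nil]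
    set r := ((List.range i).flatMap (tl f)).foldl P.st s with hr
    have e1 : (P.N - i + 1) * P.L = (P.N - (i + 1) + 1) * P.L + P.L := by
      rw [show P.N - i + 1 = (P.N - (i + 1) + 1) + 1 by omega]; ring
    have hai := ha i (by omega)
    unfold tl
    rcases hfi : f i with _ | _
    · simp only [Bool.false_eq_true, if_false, List.foldl_nil, Nat.add_zero]
      exact ⟨h1, by omega⟩
    · simp only [if_true, List.foldl_cons, List.foldl_nil, st, d]
      have p2 := P.pos_item (i := i) (by omega)
      have h2' : P.hand (2 * i + 1) = 2 * P.a i := by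
        unfold hand; rw [P.big_item (by omega), show (2 * i + 1) / 2 = i by omega]; rfl
      have r2 := P.rel_item (i := i) (by omega)
      have r3 : (2 * i + 1) * P.H ≤ (2 * P.N + 2) * P.H := Nat.mul_le_mul_right _ (by omega)
      have e2 : P.N - (i + 1) + 1 = P.N - i := by omega
      have e3 : (P.N - i) * P.L + P.L ≤ (P.N + 1) * P.L := by
        rw [show (P.N - i) * P.L + P.L = (P.N - i + 1) * P.L by ring]
        exact Nat.mul_le_mul_right _ (by omega)
      rw [e2] at e1 ⊢
      rw [p2, h2', r2]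
      generalize (P.N - i) * P.L = X at *
      generalize (P.N - i + 1) * P.L = X' at *
      generalize (P.N + 1) * P.L = Z at *
      generalize (2 * i + 1) * P.H = Y at *
      generalize (2 * P.N + 2) * P.H = Y' at *
      generalize ∑ k ∈ Finset.range i, (if f k then P.a k else 0) = S at *
      constructor <;> omega

theorem upper (hN : 1 ≤ P.N) (ha : ∀ t < P.N, P.a t ≤ P.L)
    (hsum : ∑ t ∈ Finset.range P.N, P.a t = P.B + P.C) (f : ℕ → Bool)
    (hf : ∑ t ∈ Finset.range P.N, (if f t then P.a t else 0) = P.B) :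
    ∃ π : List ℕ, π.Perm (List.range (3 * P.N + 2)) ∧ P.comp π ≤ P.K := by
  refine ⟨P.sch f, P.sch_perm f, ?_⟩
  have hC : ∑ t ∈ Finset.range P.N, (if f t then 0 else P.a t) = P.C := by
    have : ∑ t ∈ Finset.range P.N, (if f t then P.a t else 0) +
        ∑ t ∈ Finset.range P.N, (if f t then 0 else P.a t) = P.B + P.C := by
      rw [← Finset.sum_add_distrib, ← hsum]
      exact Finset.sum_congr rfl fun t _ => by split_ifs <;> simp
    omega
  have htau : P.tau f P.N = P.N * (P.N + 1) * P.L + 4 * P.C := by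
    unfold tau
    rw [Finset.sum_add_distrib]
    have h1 := P.sum_tri P.N
    rw [← Finset.range_eq_Ico] at h1
    rw [h1, ← hC, Finset.mul_sum]
    congr 1
    exact Finset.sum_congr rfl fun t _ => by split_ifs <;> simp
  unfold comp sch
  rw [List.foldl_append, List.foldl_cons, List.foldl_cons]
  set s0 := P.st (0, P.z0) (2 * P.N + 1) with hs0
  have hz : P.pos (2 * P.N + 1) = 0 := P.pos_far (by omega)
  have hs01 : s0.1 ≤ P.H := by
    rw [hs0]
    simp only [st, d, z0, hz]
    have hh : P.hand (2 * P.N + 1) = P.H := by unfold hand; rw [P.big_far (by omega)]; rfl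
    have hr : P.rel (2 * P.N + 1) = 0 := by
      unfold rel
      rw [if_neg (by omega), if_neg (by omega), if_pos (by omega),
        show 2 * P.N + 1 - 2 * P.N - 1 = 0 by omega]; simp
    rw [hh, hr]; simp
  obtain ⟨b1, b2⟩ := P.blocks hN f htau s0 hs01 (by rw [hs0]; exact hz) P.N le_rfl
  set s1 := ((List.range P.N).flatMap (P.blk f)).foldl P.st s0 with hs1
  set s2 := P.st s1 0 with hs2
  have hrz : P.rel 0 = (2 * P.N + 1) * P.H := by unfold rel; rw [if_pos rfl]
  have hhz : P.hand 0 = P.H := by unfold hand; rw [P.big_zero]; rfl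
  have hs2p : P.pos s2.2 = (P.N + 1) * P.L := by rw [hs2]; exact P.pos_zero
  have hU : s2.1 ≤ (2 * P.N + 2) * P.H + P.tau f P.N + (P.N + 1) * P.L := by
    rw [hs2]
    simp only [st, d]
    rw [hrz, hhz, b2, P.pos_zero]
    have r3 : (2 * P.N + 2) * P.H = (2 * P.N + 1) * P.H + P.H := by ring
    omega
  obtain ⟨c1, -⟩ := P.tail_step f ha ((2 * P.N + 2) * P.H + P.tau f P.N + (P.N + 1) * P.L)
    (by omega) s2 (by rw [hs2p]; omega) hs2p P.N le_rfl
  rw [hf] at c1
  have hd : ∀ v, P.d v P.z0 = P.pos v := by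
    intro v; unfold d z0; rw [hz]; omega
  rw [hd]
  refine le_trans c1 ?_
  rw [htau]
  unfold K
  have r1 : (P.N + 1) * (P.N + 2) * P.L = P.N * (P.N + 1) * P.L + 2 * ((P.N + 1) * P.L) := by ring
  omega

end Par

end Pool.Agent.Run7.h465.LV
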