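import Pool.Agent.Run7.h465.LV.Defs
import Pool.Agent.Run7.h465.LV.Lower
import Pool.Agent.Run7.h465.LV.Upper
import Pool.Agent.Run7.h465.SS.SubsetSum

/-!
The reduction from SUBSET SUM to the single-vehicle scheduling problem on a line.
-/

namespace Pool.Agent.Run7.h465.LV

open Pool.Agent.H38.NP BN

/-- instances of SUBSET SUM -/
abbrev SI := List Bin × Bin × Bin

variable {α : Type} [Enc α]

/-! ### polynomial time -/

theorem pt_bite {c : α → Prop} [DecidablePred c] {f g : α → ℕ} (hc : PT fun a => decide (c a))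
    (hf : PT fun a => Bin.mk (f a)) (hg : PT fun a => Bin.mk (g a)) :
    PT fun a => Bin.mk (if c a then f a else g a) :=
  (PT.cond hc hf hg).of_eq fun a => by by_cases h : c a <;> simp [h]

theorem pt_badd {f g : α → ℕ} (hf : PT fun a => Bin.mk (f a)) (hg : PT fun a => Bin.mk (g a)) :
    PT fun a => Bin.mk (f a + g a) :=
  (pt_binAdd hf hg).of_eq fun _ => rfl

theorem pt_bmul {n : α → ℕ} {f : α → ℕ} (hn : PT n) (hf : PT fun a => Bin.mk (f a)) :
    PT fun a => Bin.mk (n a * f a) :=
  (pt_binSmul hn hf).of_eq fun _ => rfl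

theorem at'_map (m : ℕ) (g : ℕ → Bin) (i : ℕ) :
    at' ((List.range m).map g) i = if i < m then (g i).val else 0 := by
  unfold at'
  split_ifs with h
  · rw [List.getD_eq_getElem _ _ (by simpa using h)]
    simp
  · rw [List.getD_eq_default _ _ (by simpa using h)]

/-- the logarithm of `L` -/
def lg (I : SI) : ℕ := sz I + 3

/-- the scaling factor -/
def sc (I : SI) : ℕ := 3 * (I.1.length + 1) * (I.1.length + 1)

/-- the item with number `i` -/
def item (I : SI) (i : ℕ) : Bin := I.1.getD i ⟨0⟩

/-- the parameters -/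
def par (I : SI) : Par :=
  ⟨I.1.length, 2 ^ lg I, 2 ^ (3 * lg I + 3), I.2.1.val, I.2.2.val, fun i => (item I i).val⟩

/-- the travel time of the edge `u` -/
def edge (I : SI) (u : ℕ) : ℕ :=
  if u < 2 * I.1.length then
    (if u % 2 = 0 then sc I * (2 ^ lg I - (item I (u / 2)).val) else sc I * (item I (u / 2)).val)
  else if u = 2 * I.1.length then sc I * 2 ^ lg I else 1

/-- the scheduling instance -/
def inst (I : SI) : Inst where
  start := 2 * I.1.length + 1
  fwd := (List.range (3 * I.1.length + 1)).map fun u => ⟨edge I u⟩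
  bwd := (List.range (3 * I.1.length + 1)).map fun u => ⟨edge I u⟩
  rel := (List.range (3 * I.1.length + 2)).map fun u => ⟨sc I * (par I).rel u⟩
  hand := (List.range (3 * I.1.length + 2)).map fun u => ⟨sc I * (par I).hand u⟩
  bound := ⟨sc I * (par I).K + (sc I - 1)⟩

theorem sz_getD_le (l : List Bin) (i : ℕ) : sz (l.getD i ⟨0⟩) ≤ sz l := by
  by_cases h : i < l.length
  · rw [List.getD_eq_getElem _ _ h]
    exact sz_le_of_mem (List.getElem_mem h)
  · rw [List.getD_eq_default _ _ (by omega)]
    exact Nat.zero_le _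

theorem item_lt (I : SI) (i : ℕ) : (item I i).val < 2 ^ lg I := by
  refine lt_of_lt_of_le (lt_two_pow_sz _) (Nat.pow_le_pow_right (by norm_num) ?_)
  have h1 := sz_getD_le I.1 i
  have h2 : sz I = 2 * sz I.1 + 1 + sz I.2 := sz_prod I
  unfold item lg
  omega

@[fun_prop] theorem pt_item {f : α → SI} {i : α → ℕ} (hf : PT f) (hi : PT i) :
    PT fun a => item (f a) (i a) := by unfold item; fun_prop

@[fun_prop] theorem pt_lg {f : α → SI} (hf : PT f) : PT fun a => lg (f a) := by
  unfold lg; fun_prop

@[fun_prop] theorem pt_sc {f : α → SI} (hf : PT f) : PT fun a => sc (f a) := by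
  unfold sc; fun_prop

theorem pt_edge : PT fun p : SI × ℕ => Bin.mk (edge p.1 p.2) := by
  unfold edge
  refine pt_bite (by fun_prop) (pt_bite (by fun_prop) (pt_bmul (by fun_prop) ?_)
    (pt_bmul (by fun_prop) (pt_val (by fun_prop)))) (pt_bite (by fun_prop) (pt_bmul (by fun_prop)
      (pt_binTwoPow (by fun_prop))) (pt_binConst _))
  exact pt_binTwoPowSub (by fun_prop) (by fun_prop) fun p => item_lt _ _

theorem pt_H {f : α → SI} (hf : PT f) : PT fun a => Bin.mk (2 ^ (3 * lg (f a) + 3)) :=
  pt_binTwoPow (by fun_prop)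

/-- the big number -/
def HH (I : SI) : ℕ := 2 ^ (3 * lg I + 3)

theorem pt_HH {f : α → SI} (hf : PT f) : PT fun a => Bin.mk (HH (f a)) := pt_H hf

/-- explicit release times -/
def relE (I : SI) (u : ℕ) : ℕ :=
  if u = 0 then (2 * I.1.length + 1) * HH I else
  if u = 3 * I.1.length + 1 then
    2 * I.1.length * HH I + I.1.length * (I.1.length + 1) * 2 ^ lg I + 4 * I.2.2.val else
  if 2 * I.1.length < u then 2 * (u - 2 * I.1.length - 1) * HH I else
  if u % 2 = 1 then u * HH I else (u - 1) * HH I

theorem relE_eq (I : SI) (u : ℕ) : (par I).rel u = relE I u := rfl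

theorem pt_relE : PT fun p : SI × ℕ => Bin.mk (relE p.1 p.2) := by
  have hH : PT fun p : SI × ℕ => Bin.mk (HH p.1) := pt_HH (by fun_prop)
  have hL : PT fun p : SI × ℕ => Bin.mk (2 ^ lg p.1) := pt_binTwoPow (by fun_prop)
  have hC : PT fun p : SI × ℕ => Bin.mk (p.1.2.2.val) :=
    pt_val (f := fun p : SI × ℕ => p.1.2.2) (by fun_prop)
  have h1 : PT fun p : SI × ℕ => Bin.mk ((2 * p.1.1.length + 1) * HH p.1) :=
    pt_bmul (by fun_prop) hH
  have h2 : PT fun p : SI × ℕ => Bin.mk (2 * p.1.1.length * HH p.1 +
      p.1.1.length * (p.1.1.length + 1) * 2 ^ lg p.1 + 4 * p.1.2.2.val) :=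
    pt_badd (pt_badd (pt_bmul (by fun_prop) hH) (pt_bmul (by fun_prop) hL))
      (pt_bmul (by fun_prop) hC)
  have h3 : PT fun p : SI × ℕ => Bin.mk (2 * (p.2 - 2 * p.1.1.length - 1) * HH p.1) :=
    pt_bmul (by fun_prop) hH
  have h4 : PT fun p : SI × ℕ => Bin.mk (p.2 * HH p.1) := pt_bmul (by fun_prop) hH
  have h5 : PT fun p : SI × ℕ => Bin.mk ((p.2 - 1) * HH p.1) := pt_bmul (by fun_prop) hH
  unfold relE
  exact pt_bite (by fun_prop) h1 (pt_bite (by fun_prop) h2 (pt_bite (by fun_prop) h3
    (pt_bite (by fun_prop) h4 h5)))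

theorem pt_rel : PT fun p : SI × ℕ => Bin.mk (sc p.1 * (par p.1).rel p.2) := by
  simp only [relE_eq]
  exact pt_bmul (by fun_prop) pt_relE

/-- explicit handling times -/
def handE (I : SI) (u : ℕ) : ℕ :=
  if u = 0 ∨ 2 * I.1.length < u ∨ u % 2 = 0 then HH I else 2 * (item I (u / 2)).val

theorem handE_eq (I : SI) (u : ℕ) : (par I).hand u = handE I u := by
  unfold Par.hand Par.big handE
  simp only [decide_eq_true_eq]
  rfl

theorem pt_handE : PT fun p : SI × ℕ => Bin.mk (handE p.1 p.2) := by
  have hH : PT fun p : SI × ℕ => Bin.mk (HH p.1) := pt_HH (by fun_prop)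
  have hi : PT fun p : SI × ℕ => Bin.mk (item p.1 (p.2 / 2)).val :=
    pt_val (f := fun p : SI × ℕ => item p.1 (p.2 / 2)) (by fun_prop)
  have h1 : PT fun p : SI × ℕ => Bin.mk (2 * (item p.1 (p.2 / 2)).val) := pt_bmul (by fun_prop) hi
  unfold handE
  exact pt_bite (by fun_prop) hH h1

theorem pt_hand : PT fun p : SI × ℕ => Bin.mk (sc p.1 * (par p.1).hand p.2) := by
  simp only [handE_eq]
  exact pt_bmul (by fun_prop) pt_handE

theorem pt_bound : PT fun I : SI => Bin.mk (sc I * (par I).K + (sc I - 1)) := by
  have hH : PT fun I : SI => Bin.mk (HH I) := pt_HH (by fun_prop)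
  have hL : PT fun I : SI => Bin.mk (2 ^ lg I) := pt_binTwoPow (by fun_prop)
  have hB : PT fun I : SI => Bin.mk (I.2.1.val) :=
    pt_val (f := fun p : SI => p.2.1) (by fun_prop)
  have hC : PT fun I : SI => Bin.mk (I.2.2.val) :=
    pt_val (f := fun p : SI => p.2.2) (by fun_prop)
  have e : ∀ I : SI, (par I).K = (2 * I.1.length + 2) * HH I +
    (I.1.length + 1) * (I.1.length + 2) * 2 ^ lg I + 2 * I.2.1.val + 4 * I.2.2.val := fun _ => rfl
  simp only [e]
  have h1 : PT fun I : SI => Bin.mk ((2 * I.1.length + 2) * HH I) := pt_bmul (by fun_prop) hH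
  have h2 : PT fun I : SI => Bin.mk ((I.1.length + 1) * (I.1.length + 2) * 2 ^ lg I) :=
    pt_bmul (by fun_prop) hL
  have h3 : PT fun I : SI => Bin.mk (2 * I.2.1.val) := pt_bmul (by fun_prop) hB
  have h4 : PT fun I : SI => Bin.mk (4 * I.2.2.val) := pt_bmul (by fun_prop) hC
  exact pt_badd (pt_bmul (by fun_prop) (pt_badd (pt_badd (pt_badd h1 h2) h3) h4))
    (pt_toBin (by fun_prop))

/-- the tuple of the components -/
abbrev Tup := ℕ × List Bin × List Bin × List Bin × List Bin × Bin

/-- an instance as a tuple -/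
def Inst.tup (I : Inst) : Tup := (I.start, I.fwd, I.bwd, I.rel, I.hand, I.bound)

/-- a tuple as an instance -/
def ofTup (p : Tup) : Inst := ⟨p.1, p.2.1, p.2.2.1, p.2.2.2.1, p.2.2.2.2.1, p.2.2.2.2.2⟩

@[fun_prop] theorem pt_tup {f : α → Inst} (hf : PT f) :
    PT fun a => (f a).tup := PT.recast' hf fun _ => rfl

@[fun_prop] theorem pt_ofTup {f : α → Tup} (hf : PT f) :
    PT fun a => ofTup (f a) := PT.recast' hf fun _ => rfl

instance : Dec Inst := ⟨fun x => ofTup (dec x), by fun_prop, fun I => by
  have : raw I = raw I.tup := rfl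
  rw [this, Dec.dec_raw]; rfl⟩

theorem pt_inst : PT inst := by
  have h1 : PT fun I : SI => (List.range (3 * I.1.length + 1)).map fun u => Bin.mk (edge I u) :=
    PT.map (f := fun I u => Bin.mk (edge I u)) pt_edge (by fun_prop)
  have h2 : PT fun I : SI => (List.range (3 * I.1.length + 2)).map fun u =>
      Bin.mk (sc I * (par I).rel u) :=
    PT.map (f := fun I u => Bin.mk (sc I * (par I).rel u)) pt_rel (by fun_prop)
  have h3 : PT fun I : SI => (List.range (3 * I.1.length + 2)).map fun u =>
      Bin.mk (sc I * (par I).hand u) :=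
    PT.map (f := fun I u => Bin.mk (sc I * (par I).hand u)) pt_hand (by fun_prop)
  have h0 : PT fun I : SI => 2 * I.1.length + 1 := by fun_prop
  exact (pt_ofTup (h0.mk (h1.mk (h1.mk (h2.mk (h3.mk pt_bound)))))).of_eq fun I => rfl

/-! ### comparison with the abstract instance -/

section compare

variable (I : SI)

theorem sc_pos : 0 < sc I := by unfold sc; positivity

theorem edge_pos (hI : SS.Ok I) (u : ℕ) : 0 < edge I u := by
  have hs := sc_pos I
  have hit : ∀ i < I.1.length, 0 < (item I i).val := by
    intro i hi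
    unfold item
    rw [List.getD_eq_getElem _ _ hi]
    exact hI.2.1 _ (List.getElem_mem hi)
  unfold edge
  split_ifs
  · have := item_lt I (u / 2)
    exact Nat.mul_pos hs (by omega)
  · exact Nat.mul_pos hs (hit _ (by omega))
  · positivity
  · norm_num

/-- the length of an edge in terms of the positions -/
theorem edge_eq (u : ℕ) : edge I u =
    sc I * ((par I).pos u - (par I).pos (u + 1)) + (if 2 * I.1.length < u then 1 else 0) ∧
    (par I).pos (u + 1) ≤ (par I).pos u := by
  have hN : (par I).N = I.1.length := rfl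
  have hL : (par I).L = 2 ^ lg I := rfl
  have ha : ∀ i, (par I).a i = (item I i).val := fun _ => rfl
  unfold edge
  rcases Nat.lt_or_ge u (2 * I.1.length) with h | h
  · have e0 : (if 2 * I.1.length < u then 1 else 0) = 0 := if_neg (by omega)
    rw [if_pos h, e0]
    obtain ⟨i, hi⟩ : ∃ i, u = 2 * i ∨ u = 2 * i + 1 := ⟨u / 2, by omega⟩
    rcases hi with rfl | rfl
    · rw [if_pos (by omega), show 2 * i / 2 = i by omega]
      rw [(par I).pos_item (i := i) (by rw [hN]; omega), hL, ha]
      have e : (par I).pos (2 * i) = (I.1.length - i) * 2 ^ lg I + 2 ^ lg I := by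
        cases i with
        | zero => rw [Nat.mul_zero, (par I).pos_zero, hN, hL]; simp; ring
        | succ i =>
          rw [show 2 * (i + 1) = 2 * i + 2 by ring, (par I).pos_odd (i := i) (by rw [hN]; omega),
            hN, hL]
          rw [show I.1.length - i = (I.1.length - (i + 1)) + 1 by omega]
          ring
      rw [e, hN]
      have := item_lt I i
      generalize hx : 2 ^ lg I = x at *
      generalize (I.1.length - i) * x = y at *
      refine ⟨?_, by omega⟩
      rw [Nat.add_sub_add_left, Nat.add_zero]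
    · rw [if_neg (by omega), show (2 * i + 1) / 2 = i by omega]
      rw [(par I).pos_item (i := i) (by rw [hN]; omega), (par I).pos_odd (i := i) (by rw [hN]; omega)]
      generalize ((par I).N - i) * (par I).L = y at *
      refine ⟨?_, by omega⟩
      rw [Nat.add_sub_cancel_left, ha, Nat.add_zero]
  · rw [if_neg (by omega)]
    rcases Nat.eq_or_lt_of_le h with h | h
    · rw [if_pos h.symm, if_neg (by omega), (par I).pos_far (u := u + 1) (by rw [hN]; omega)]
      refine ⟨?_, Nat.zero_le _⟩
      rcases Nat.eq_zero_or_pos I.1.length with h0 | h0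
      · have : u = 0 := by omega
        subst this
        rw [(par I).pos_zero, hN, hL, h0]; simp
      · obtain ⟨i, hi⟩ : ∃ i, u = 2 * i + 2 := ⟨I.1.length - 1, by omega⟩
        subst hi
        rw [(par I).pos_odd (i := i) (by rw [hN]; omega), hN, hL]
        rw [show I.1.length - i = 1 by omega]
        simp
    · rw [if_neg (by omega), if_pos h, (par I).pos_far (u := u) (by rw [hN]; omega),
        (par I).pos_far (u := u + 1) (by rw [hN]; omega)]
      simp

theorem pos_anti {u v : ℕ} (h : u ≤ v) : (par I).pos v ≤ (par I).pos u := by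
  induction v, h using Nat.le_induction with
  | base => exact le_rfl
  | succ v _ ih => exact (edge_eq I v).2.trans ih

theorem sum_edge {u v : ℕ} (h : u ≤ v) : ∑ i ∈ Finset.Ico u v, edge I i =
    sc I * ((par I).pos u - (par I).pos v) +
      ∑ i ∈ Finset.Ico u v, (if 2 * I.1.length < i then 1 else 0) := by
  induction v, h using Nat.le_induction with
  | base => simp
  | succ v hv ih =>
    rw [Finset.sum_Ico_succ_top hv, Finset.sum_Ico_succ_top hv, ih, (edge_eq I v).1]
    have h1 := (edge_eq I v).2
    have h2 := pos_anti I hv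
    have e : (par I).pos u - (par I).pos (v + 1) =
      ((par I).pos u - (par I).pos v) + ((par I).pos v - (par I).pos (v + 1)) := by omega
    rw [e, Nat.mul_add]
    ring

theorem sum_small {u v : ℕ} (hv : v < 3 * I.1.length + 2) :
    ∑ i ∈ Finset.Ico u v, (if 2 * I.1.length < i then 1 else 0) ≤ I.1.length := by
  rw [Finset.sum_boole]
  have : ((Finset.Ico u v).filter fun i => 2 * I.1.length < i) ⊆
      Finset.Ico (2 * I.1.length + 1) (3 * I.1.length + 1) := by
    intro i hi
    simp only [Finset.mem_filter, Finset.mem_Ico] at hi ⊢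
    omega
  have h := Finset.card_le_card this
  rw [Nat.card_Ico] at h
  simp only [Nat.cast_id]
  omega

theorem travel_inst {u v : ℕ} (hu : u < 3 * I.1.length + 2) (hv : v < 3 * I.1.length + 2) :
    sc I * (par I).d u v ≤ travel (inst I) u v ∧
      travel (inst I) u v ≤ sc I * (par I).d u v + I.1.length := by
  have e : ∀ u v, v < 3 * I.1.length + 2 → ∑ i ∈ Finset.Ico u v,
      at' ((List.range (3 * I.1.length + 1)).map fun u => ⟨edge I u⟩) i =
      ∑ i ∈ Finset.Ico u v, edge I i := by
    intro u v hv
    refine Finset.sum_congr rfl fun i hi => ?_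
    rw [Finset.mem_Ico] at hi
    rw [at'_map, if_pos (by omega)]
  have e1 : travel (inst I) u v = ∑ i ∈ Finset.Ico u v, edge I i +
      ∑ i ∈ Finset.Ico v u, edge I i := by
    unfold travel inst
    rw [e u v hv, e v u hu]
  rw [e1]
  unfold Par.d
  rcases Nat.le_total u v with h | h
  · rw [sum_edge I h, Finset.Ico_eq_empty_of_le h, Finset.sum_empty]
    have h1 := pos_anti I h
    have h2 := sum_small I (u := u) hv
    rw [show (par I).pos v - (par I).pos u = 0 by omega, Nat.add_zero]
    omega
  · rw [sum_edge I h, Finset.Ico_eq_empty_of_le h, Finset.sum_empty]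
    have h1 := pos_anti I h
    have h2 := sum_small I (u := v) hu
    rw [show (par I).pos u - (par I).pos v = 0 by omega, Nat.zero_add]
    omega

theorem fold_inst (π : List ℕ) (hπ : ∀ j ∈ π, j < 3 * I.1.length + 2) (s s' : ℕ × ℕ) (k : ℕ)
    (h2 : s'.2 = s.2) (hs : s.2 < 3 * I.1.length + 2) (h : sc I * s.1 ≤ s'.1)
    (h' : s'.1 ≤ sc I * s.1 + k * I.1.length) :
    (π.foldl (step (inst I)) s').2 = (π.foldl (par I).st s).2 ∧
    (π.foldl (par I).st s).2 < 3 * I.1.length + 2 ∧
    sc I * (π.foldl (par I).st s).1 ≤ (π.foldl (step (inst I)) s').1 ∧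
    (π.foldl (step (inst I)) s').1 ≤
      sc I * (π.foldl (par I).st s).1 + (k + π.length) * I.1.length := by
  induction π generalizing s s' k with
  | nil => exact ⟨h2, hs, h, by simpa using h'⟩
  | cons j π ih =>
    have hj := hπ j List.mem_cons_self
    rw [List.foldl_cons, List.foldl_cons, List.length_cons]
    have ht := travel_inst I hs hj
    have hr : at' (inst I).rel j = sc I * (par I).rel j := by
      unfold inst; rw [at'_map, if_pos hj]
    have hh : at' (inst I).hand j = sc I * (par I).hand j := by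
      unfold inst; rw [at'_map, if_pos hj]
    have := ih (fun j hj => hπ j (List.mem_cons_of_mem _ hj)) ((par I).st s j)
      (step (inst I) s' j) (k + 1) rfl hj ?_ ?_
    · rw [show k + (π.length + 1) = k + 1 + π.length by ring]
      exact this
    · unfold step Par.st
      simp only
      rw [h2, hr, hh, Nat.mul_add, ← Nat.mul_max_mul_left, Nat.mul_add]
      have a1 : sc I * s.1 + sc I * (par I).d s.2 j ≤ s'.1 + travel (inst I) s.2 j := by omega
      have := max_le_max a1 (le_refl (sc I * (par I).rel j))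
      omega
    · unfold step Par.st
      simp only
      rw [h2, hr, hh, Nat.mul_add, ← Nat.mul_max_mul_left, Nat.mul_add, Nat.add_mul k 1, Nat.one_mul]
      generalize k * I.1.length = x at *
      generalize sc I * (par I).rel j = y at *
      generalize sc I * (par I).d s.2 j = z at *
      generalize sc I * s.1 = w at *
      generalize travel (inst I) s.2 j = t at *
      omega

theorem completion_inst (π : List ℕ) (hπ : π.Perm (List.range (3 * I.1.length + 2))) :
    sc I * (par I).comp π ≤ completion (inst I) π ∧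
    completion (inst I) π ≤ sc I * (par I).comp π + (sc I - 1) := by
  have hlen : π.length = 3 * I.1.length + 2 := by rw [hπ.length_eq, List.length_range]
  have hz : (par I).z0 = 2 * I.1.length + 1 := rfl
  have hz' : (inst I).start = 2 * I.1.length + 1 := rfl
  have := fold_inst I π (fun j hj => List.mem_range.1 (hπ.mem_iff.1 hj)) (0, (par I).z0)
    (0, (inst I).start) 0 rfl (by simp only [hz]; omega) (by simp) (by simp)
  obtain ⟨h1, h2, h3, h4⟩ := this
  rw [hz', ← hz] at h1 h3 h4
  unfold completion Par.comp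
  simp only
  rw [hz', ← hz, h1]
  have ht := travel_inst I h2 (v := 2 * I.1.length + 1) (by omega)
  rw [← hz] at ht
  have hs : (0 + π.length + 1) * I.1.length ≤ sc I - 1 := by
    rw [hlen]; unfold sc
    have : 3 * (I.1.length + 1) * (I.1.length + 1) =
      (0 + (3 * I.1.length + 2) + 1) * I.1.length + 3 * I.1.length + 3 := by ring
    omega
  rw [Nat.add_mul, Nat.one_mul] at hs
  rw [Nat.mul_add]
  omega

end compare

theorem nph : NPH (fun I : Inst => IsInst I ∧ PosHand I ∧ PosTravel I ∧ Symmetric I)
    HasSchedule := by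
  refine SS.nph.reduce inst pt_inst fun I hI => ?_
  have hN : 1 ≤ I.1.length := List.length_pos_iff.2 hI.1
  have hn : (inst I).n = 3 * I.1.length + 2 := by simp [Inst.n, inst]
  have hs := sc_pos I
  refine ⟨⟨⟨?_, ?_, ?_, ?_⟩, ?_, ?_, rfl⟩, ?_⟩
  · rw [hn]; simp only [inst]; omega
  · rw [hn]; simp [inst]
  · rw [hn]; simp [inst]
  · rw [hn]; simp [inst]
  · intro i hi
    rw [hn] at hi
    unfold inst
    rw [at'_map, if_pos hi]
    refine Nat.mul_pos hs ?_
    unfold Par.hand
    split_ifs with hb
    · unfold par; simp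
    · obtain ⟨j, hj, rfl⟩ := (par I).not_big (by simpa using hb)
      rw [show (2 * j + 1) / 2 = j by omega]
      change 0 < 2 * (item I j).val
      unfold item
      rw [List.getD_eq_getElem _ _ hj]
      have := hI.2.1 _ (List.getElem_mem hj)
      omega
  · intro i hi
    rw [hn] at hi
    unfold inst
    rw [at'_map, if_pos (by omega)]
    exact ⟨edge_pos I hI i, edge_pos I hI i⟩
  · have key : HasSchedule (inst I) ↔ ∃ π : List ℕ,
        π.Perm (List.range (3 * (par I).N + 2)) ∧ (par I).comp π ≤ (par I).K := by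
      unfold HasSchedule
      rw [hn]
      refine exists_congr fun π => and_congr_right fun hπ => ?_
      obtain ⟨h1, h2⟩ := completion_inst I π hπ
      change completion (inst I) π ≤ sc I * (par I).K + (sc I - 1) ↔ _
      constructor
      · intro h
        by_contra hc
        have : (par I).K + 1 ≤ (par I).comp π := by omega
        have := Nat.mul_le_mul_left (sc I) this
        rw [Nat.mul_add, Nat.mul_one] at this
        omega
      · intro h
        have := Nat.mul_le_mul_left (sc I) h
        omega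
    rw [key]
    have hsum : ∑ t ∈ Finset.range (par I).N, (par I).a t = (par I).B + (par I).C := by
      change ∑ t ∈ Finset.range I.1.length, (I.1.getD t ⟨0⟩).val = _
      rw [SS.sum_getD I.1 ⟨0⟩ Bin.val]
      exact hI.2.2
    constructor
    · rintro ⟨f, hf⟩
      exact (par I).upper hN (fun t ht => (item_lt I t).le) hsum f hf
    · rintro ⟨π, h1, h2⟩
      refine (par I).lower hN (fun t ht => (item_lt I t).le) hsum ?_ π h1 h2
      -- the size of `H`
      have hB : (par I).B < 2 ^ lg I := by
        refine lt_of_lt_of_le (lt_two_pow_sz I.2.1) (Nat.pow_le_pow_right (by norm_num) ?_)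
        have h2 : sz I = 2 * sz I.1 + 1 + sz I.2 := sz_prod I
        have h3 : sz I.2 = 2 * sz I.2.1 + 1 + sz I.2.2 := sz_prod I.2
        unfold lg; omega
      have hC : (par I).C < 2 ^ lg I := by
        refine lt_of_lt_of_le (lt_two_pow_sz I.2.2) (Nat.pow_le_pow_right (by norm_num) ?_)
        have h2 : sz I = 2 * sz I.1 + 1 + sz I.2 := sz_prod I
        have h3 : sz I.2 = 2 * sz I.2.1 + 1 + sz I.2.2 := sz_prod I.2
        unfold lg; omega
      have hNl : (par I).N + 2 ≤ 2 ^ lg I := by
        have h1 : I.1.length ≤ sz I.1 := length_le_sz I.1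
        have h2 : sz I = 2 * sz I.1 + 1 + sz I.2 := sz_prod I
        have h3 : lg I < 2 ^ lg I := Nat.lt_two_pow_self
        change I.1.length + 2 ≤ _
        unfold lg at *; omega
      have hH : (par I).H = 8 * (2 ^ lg I * 2 ^ lg I * 2 ^ lg I) := by
        change 2 ^ (3 * lg I + 3) = _
        rw [pow_add, pow_mul']; ring
      have hL : (par I).L = 2 ^ lg I := rfl
      rw [hH, hL]
      generalize (par I).N = n at *
      generalize (par I).B = b at *
      generalize (par I).C = c at *
      have h1 : 1 ≤ 2 ^ lg I := Nat.one_le_two_pow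
      generalize 2 ^ lg I = x at *
      have a1 : (n + 1) * (n + 2) * x ≤ x * x * x :=
        Nat.mul_le_mul_right _ (Nat.mul_le_mul (by omega) hNl)
      have a2 : x ≤ x * x * x := by nlinarith [Nat.mul_le_mul h1 h1]
      omega

end Pool.Agent.Run7.h465.LV
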